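import Pool.Agent.Helper66.SB.Goals

/-!
# Project SB (MP_d3128a_ag), packet CONST: constants of the derivation along an irreducible curve
-/

set_option autoImplicit false

open Module MvPolynomial

noncomputable section

namespace Pool.Agent.Helper13.SB

open Pool.Agent.Helper66.SB Helper18.Shgh

namespace CnAux

theorem br_eval (R : Fin 2 → ℂ) (φ : Polynomial ℂ) (hφ : φ.coeff 0 = 0) (h : R2) :
    Polynomial.eval 0 (br R φ h) = eval R h := by
  have h0 : Polynomial.eval 0 φ = 0 := by
    rw [← Polynomial.coeff_zero_eq_eval_zero]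
    exact hφ
  induction h using MvPolynomial.induction_on with
  | C a =>
    simp [br]
  | add p q hp hq =>
    rw [map_add, Polynomial.eval_add, hp, hq, map_add]
  | mul_X p i hp =>
    rw [map_mul, Polynomial.eval_mul, hp, map_mul, eval_X]
    congr 1
    fin_cases i
    · simp [br]
    · simp [br, h0]

theorem br_q (R : Fin 2 → ℂ) (φ q : Polynomial ℂ) :
    br R φ (Polynomial.aeval (X 0 : R2) q) = Polynomial.taylor (R 0) q := by
  rw [← Polynomial.aeval_algHom_apply, Polynomial.taylor_apply, Polynomial.comp_eq_aeval]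
  congr 1
  simp [br, add_comm]

end CnAux

open CnAux in
/-- PACKET CONST -/
theorem gCONST (hBR : G_BR) (hBD : G_BD) (hELIM : G_ELIM) (hPT : G_PT) : G_CONST := by
  intro F f g hF hFy hg hdiv
  have hp : Prime F := hF.prime
  have h1 : ¬ F ∣ pderiv 1 F * g := fun h => (hp.dvd_or_dvd h).elim hFy hg
  obtain ⟨R, hR0, hR1⟩ := hPT F _ hF h1
  rw [map_mul] at hR1
  have hFyR : eval R (pderiv 1 F) ≠ 0 := left_ne_zero_of_mul hR1
  have hgR : eval R g ≠ 0 := right_ne_zero_of_mul hR1
  refine ⟨eval R f / eval R g, ?_⟩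
  generalize hc : eval R f / eval R g = c
  by_contra hnd
  obtain ⟨a, b, q, hq, hab⟩ := hELIM F (f - C c * g) hF hnd
  generalize hf1 : f - C c * g = f1 at hnd hab
  have hf1R : eval R f1 = 0 := by
    rw [← hf1, map_sub, map_mul, eval_C, ← hc, div_mul_cancel₀ _ hgR, sub_self]
  have hdl : dl F f1 = dl F f - C c * dl F g := by
    rw [← hf1, map_sub, Derivation.leibniz, smul_eq_mul, smul_eq_mul]
    have : dl F (C c) = 0 := by
      have := (dl F).map_algebraMap c
      exact this
    rw [this]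
    ring
  have hdiv1 : F ∣ dl F f1 * g - f1 * dl F g := by
    have : dl F f1 * g - f1 * dl F g = dl F f * g - f * dl F g := by
      rw [hdl, ← hf1]
      ring
    rw [this]
    exact hdiv
  have hQ : Polynomial.taylor (R 0) q ≠ 0 := by
    intro h
    apply hq
    apply Polynomial.taylor_injective (R 0)
    rw [h, map_zero]
  obtain ⟨N, hN⟩ : ∃ N : ℕ, ¬ (Polynomial.X : Polynomial ℂ) ^ N ∣ Polynomial.taylor (R 0) q := by
    refine ⟨(Polynomial.taylor (R 0) q).natDegree + 1, fun h => ?_⟩
    have := Polynomial.natDegree_le_of_dvd h hQ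
    rw [Polynomial.natDegree_X_pow] at this
    omega
  obtain ⟨φ, hφ0, hφ⟩ := hBR F R hR0 hFyR (N + 2)
  have hB : ¬ (Polynomial.X : Polynomial ℂ) ^ N ∣ br R φ f1 := by
    intro h
    apply hN
    rw [← br_q R φ q, ← hab, map_add, map_mul, map_mul]
    refine dvd_add (Dvd.dvd.mul_left ?_ _) (Dvd.dvd.mul_left h _)
    exact (pow_dvd_pow _ (by omega)).trans hφ
  have hex : ∃ n : ℕ, ¬ (Polynomial.X : Polynomial ℂ) ^ n ∣ br R φ f1 := ⟨N, hB⟩
  classical
  obtain ⟨e, he1, he2, heN⟩ : ∃ e : ℕ, (Polynomial.X : Polynomial ℂ) ^ (e + 1) ∣ br R φ f1 ∧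
      ¬ (Polynomial.X : Polynomial ℂ) ^ (e + 2) ∣ br R φ f1 ∧ e + 2 ≤ N := by
    have hm := Nat.find_spec hex
    have hle : Nat.find hex ≤ N := Nat.find_min' hex hB
    have hX1 : (Polynomial.X : Polynomial ℂ) ^ 1 ∣ br R φ f1 := by
      rw [pow_one, Polynomial.X_dvd_iff, Polynomial.coeff_zero_eq_eval_zero, br_eval R φ hφ0, hf1R]
    have h2 : 2 ≤ Nat.find hex := by
      by_contra h
      have h3 : Nat.find hex ≤ 1 := by omega
      exact hm ((pow_dvd_pow _ h3).trans hX1)
    refine ⟨Nat.find hex - 2, ?_, ?_, by omega⟩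
    · have := Nat.find_min hex (m := Nat.find hex - 2 + 1) (by omega)
      exact not_not.mp this
    · have : Nat.find hex - 2 + 2 = Nat.find hex := by omega
      rw [this]
      exact hm
  obtain ⟨B, hBe⟩ := he1
  have hB0 : Polynomial.eval 0 B ≠ 0 := by
    intro h
    apply he2
    rw [← Polynomial.coeff_zero_eq_eval_zero, ← Polynomial.X_dvd_iff] at h
    rw [hBe, pow_succ _ (e + 1)]
    exact mul_dvd_mul_left _ h
  have hder : Polynomial.derivative (br R φ f1) =
      Polynomial.X ^ e * (((e + 1 : ℕ) : Polynomial ℂ) * B + Polynomial.X * Polynomial.derivative B) := by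
    rw [hBe, Polynomial.derivative_mul, Polynomial.derivative_X_pow]
    simp only [Nat.add_sub_cancel, map_natCast]
    ring
  have hkey : (Polynomial.X : Polynomial ℂ) ^ (e + 1) ∣
      br R φ (pderiv 1 F) * Polynomial.derivative (br R φ f1) * br R φ g := by
    have k1 : (Polynomial.X : Polynomial ℂ) ^ (e + 1) ∣
        br R φ (dl F f1) - br R φ (pderiv 1 F) * Polynomial.derivative (br R φ f1) :=
      (pow_dvd_pow _ (by omega)).trans (hBD F f1 R φ (N + 2) hφ)
    have k2 : (Polynomial.X : Polynomial ℂ) ^ (e + 1) ∣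
        br R φ (dl F f1) * br R φ g - br R φ f1 * br R φ (dl F g) := by
      obtain ⟨s, hs⟩ := hdiv1
      rw [← map_mul, ← map_mul, ← map_sub, hs, map_mul]
      exact Dvd.dvd.mul_right ((pow_dvd_pow _ (by omega)).trans hφ) _
    have k3 : (Polynomial.X : Polynomial ℂ) ^ (e + 1) ∣ br R φ f1 * br R φ (dl F g) :=
      Dvd.dvd.mul_right ⟨B, hBe⟩ _
    have k4 : br R φ (pderiv 1 F) * Polynomial.derivative (br R φ f1) * br R φ g =
        (br R φ (dl F f1) * br R φ g - br R φ f1 * br R φ (dl F g)) + br R φ f1 * br R φ (dl F g)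
          - (br R φ (dl F f1) - br R φ (pderiv 1 F) * Polynomial.derivative (br R φ f1))
            * br R φ g := by
      ring
    rw [k4]
    exact dvd_sub (dvd_add k2 k3) (Dvd.dvd.mul_right k1 _)
  rw [hder] at hkey
  have hkey2 : (Polynomial.X : Polynomial ℂ) ^ e * Polynomial.X ∣ Polynomial.X ^ e *
      (br R φ (pderiv 1 F) * (((e + 1 : ℕ) : Polynomial ℂ) * B +
        Polynomial.X * Polynomial.derivative B) * br R φ g) := by
    have h5 : (Polynomial.X : Polynomial ℂ) ^ e *
        (br R φ (pderiv 1 F) * (((e + 1 : ℕ) : Polynomial ℂ) * B +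
          Polynomial.X * Polynomial.derivative B) * br R φ g) =
        br R φ (pderiv 1 F) * (Polynomial.X ^ e * (((e + 1 : ℕ) : Polynomial ℂ) * B +
          Polynomial.X * Polynomial.derivative B)) * br R φ g := by
      ring
    rw [← pow_succ, h5]
    exact hkey
  have hX0 : (Polynomial.X : Polynomial ℂ) ^ e ≠ 0 := pow_ne_zero _ Polynomial.X_ne_zero
  have hkey3 := (mul_dvd_mul_iff_left hX0).1 hkey2
  rw [Polynomial.X_dvd_iff, Polynomial.coeff_zero_eq_eval_zero, Polynomial.eval_mul,
    Polynomial.eval_mul, br_eval R φ hφ0, br_eval R φ hφ0, Polynomial.eval_add, Polynomial.eval_mul,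
    Polynomial.eval_mul, Polynomial.eval_X, zero_mul, add_zero, Polynomial.eval_natCast] at hkey3
  have hne : ((e + 1 : ℕ) : ℂ) ≠ 0 := Nat.cast_ne_zero.2 (by omega)
  exact mul_ne_zero (mul_ne_zero hFyR (mul_ne_zero hne hB0)) hgR hkey3

end Pool.Agent.Helper13.SB
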